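import Pool.Agent.Helper91.SY.Heads

/-!
# Project SY (MP_126465_gt): packet SY-CR, rotation-invariant forms have a canonical pair
-/

set_option autoImplicit false

open Set Filter Topology
open scoped ContDiff

namespace Pool.Agent.Helper5.SY

open Pool.Agent.Helper91.SY

/-- the coordinate `x i` -/
noncomputable def cp {n : ℕ} (i : Fin n) : V n →L[ℝ] ℝ :=
  (ContinuousLinearMap.proj (R := ℝ) (φ := fun _ : Fin n => ℝ) i).comp
    (ContinuousLinearMap.fst ℝ (Fin n → ℝ) (Fin n → ℝ))

/-- the coordinate `y i` -/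
noncomputable def cq {n : ℕ} (i : Fin n) : V n →L[ℝ] ℝ :=
  (ContinuousLinearMap.proj (R := ℝ) (φ := fun _ : Fin n => ℝ) i).comp
    (ContinuousLinearMap.snd ℝ (Fin n → ℝ) (Fin n → ℝ))

theorem cp_apply {n : ℕ} (i : Fin n) (z : V n) : cp i z = z.1 i := rfl

theorem cq_apply {n : ℕ} (i : Fin n) (z : V n) : cq i z = z.2 i := rfl

/-- the vector `∂/∂x_i` -/
def va {n : ℕ} (i : Fin n) : V n := (Pi.single i 1, 0)

/-- the vector `∂/∂y_i` -/
def vb {n : ℕ} (i : Fin n) : V n := (0, Pi.single i 1)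

theorem plane_ab {n : ℕ} (i : Fin n) : Plane (va i) (vb i) (cp i) (cq i) := by
  constructor
  · simp [cp_apply, va]
  · simp [cp_apply, vb]
  · simp [cq_apply, va]
  · simp [cq_apply, vb]

theorem rot_eq {n : ℕ} (i : Fin n) (θ : ℝ) (z : V n) :
    Rot (va i) (vb i) (cp i) (cq i) θ z = rotI i θ z := by
  have h1 : Rot (va i) (vb i) (cp i) (cq i) θ z
      = z + (Real.cos θ - 1) • (z.1 i • va i + z.2 i • vb i)
        + Real.sin θ • (z.1 i • vb i - z.2 i • va i) := rfl
  rw [h1]
  refine Prod.ext ?_ ?_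
  · funext k
    by_cases hk : k = i
    · subst hk
      simp [rotI, va, vb]
      ring
    · simp [rotI, va, vb, hk]
  · funext k
    by_cases hk : k = i
    · subst hk
      simp [rotI, va, vb]
      ring
    · simp [rotI, va, vb, hk]

theorem w0_va {n : ℕ} (i : Fin n) (v : V n) : w0 (va i) v = cq i v := by
  simp [w0, va, cq_apply, Pi.single_apply]

theorem w0_vb {n : ℕ} (i : Fin n) (v : V n) : w0 (vb i) v = -cp i v := by
  simp [w0, vb, cp_apply, Pi.single_apply]

/-- PACKET CR (rotation-invariant forms have a canonical pair). -/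
theorem cr_ (hRI : StmtRI) (hHI : StmtHI) (hRD : StmtRD) (hHP : StmtHP) (hBR : StmtBR)
    (hCW : StmtCW) : StmtCR := by
  intro n hn i η hη hinv
  obtain ⟨B, B0, R, hR0, hS, hFar, hBη, hB0⟩ := hCW n η hη
  have hPl := plane_ab i
  have hPull : ∀ θ, Pull (Rot (va i) (vb i) (cp i) (cq i) θ) B B := by
    intro θ x u v
    rw [ContinuousLinearMap.fderiv, hBη, hBη, rot_eq, rot_eq, rot_eq]
    exact hinv θ x u v
  obtain ⟨H, hHs, hHd, hHinv, hH0⟩ := hRI (V n) B (va i) (vb i) (cp i) (cq i) hS hPl hPull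
  -- a second coordinate
  obtain ⟨j, hj⟩ : ∃ j : Fin n, j ≠ i := by
    by_cases h0 : i.val = 0
    · exact ⟨⟨1, by omega⟩, fun h => by rw [← h] at h0; simp at h0⟩
    · exact ⟨⟨0, by omega⟩, fun h => h0 (by rw [← h])⟩
  have hc0 : va j ≠ 0 := by
    intro h
    have h1 : (va j).1 j = (0 : V n).1 j := by rw [h]
    simp [va] at h1
  have hpc : cp i (va j) = 0 := by simp [cp_apply, va, Ne.symm hj]
  have hqc : cq i (va j) = 0 := by simp [cq_apply, va]
  obtain ⟨hHfar, hHpos⟩ := hHI (V n) B B0 R (va i) (vb i) (va j) (cp i) (cq i) H hS hFar hPl hc0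
    hpc hqc (fun v => by rw [hB0, w0_va]) (fun v => by rw [hB0, w0_vb]) hHs hHd hH0
  obtain ⟨h, hhs, hHh, hhinv, hhd⟩ := hRD (V n) (va i) (vb i) (cp i) (cq i) H hPl hHs hHinv hH0
  have hhpos : ∀ x, 0 < h x := hHP (V n) B (va i) (vb i) (cp i) (cq i) H h hS hPl hPull hHs hhs
    hHd hHh hHpos hhd
  obtain ⟨X, Y, -, -, hX, hY, hXY⟩ := hBR (V n) B (va i) (vb i) (cp i) (cq i) H h hS hPl hHs hhs
    hHd hHh hhinv hhpos
  -- `h = 1/2` far away
  have hoff : ∀ x : V n, R ≤ ‖x‖ → (cp i x ≠ 0 ∨ cq i x ≠ 0) → h x = 1 / 2 := by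
    intro x hx hpq
    have h1 := hHfar x hx
    rw [hHh x] at h1
    have h2 : 0 < cp i x ^ 2 + cq i x ^ 2 := by
      rcases hpq with h3 | h3
      · have := sq_pos_of_ne_zero h3
        have := sq_nonneg (cq i x)
        linarith
      · have := sq_pos_of_ne_zero h3
        have := sq_nonneg (cp i x)
        linarith
    have h3 : (cp i x ^ 2 + cq i x ^ 2) * h x = (cp i x ^ 2 + cq i x ^ 2) * (1 / 2) := by
      rw [h1]; ring
    exact mul_left_cancel₀ h2.ne' h3
  have hhalf : ∀ x : V n, R < ‖x‖ → h x = 1 / 2 := by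
    intro x hx
    by_cases hpq : cp i x ≠ 0 ∨ cq i x ≠ 0
    · exact hoff x hx.le hpq
    · push Not at hpq
      have hcont : Continuous fun s : ℝ => x + s • va i := by fun_prop
      have h1 : Tendsto (fun s : ℝ => h (x + s • va i)) (𝓝[≠] 0) (𝓝 (h x)) := by
        have h2 : Continuous fun s : ℝ => h (x + s • va i) := hhs.continuous.comp hcont
        have h3 := (h2.tendsto 0).mono_left (nhdsWithin_le_nhds (s := {0}ᶜ))
        simpa using h3
      have h2 : ∀ᶠ s : ℝ in 𝓝[≠] 0, h (x + s • va i) = 1 / 2 := by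
        have h3 : ∀ᶠ s : ℝ in 𝓝[≠] 0, R < ‖x + s • va i‖ := by
          have h4 : Continuous fun s : ℝ => ‖x + s • va i‖ := hcont.norm
          have h5 : Tendsto (fun s : ℝ => ‖x + s • va i‖) (𝓝[≠] 0) (𝓝 ‖x‖) := by
            have h6 := (h4.tendsto 0).mono_left (nhdsWithin_le_nhds (s := {0}ᶜ))
            simpa using h6
          exact h5.eventually (lt_mem_nhds hx)
        filter_upwards [h3, self_mem_nhdsWithin] with s hs1 hs2
        refine hoff _ hs1.le (Or.inl ?_)
        rw [map_add, map_smul, hpq.1, hPl.pa]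
        simpa using hs2
      have h3 : Tendsto (fun s : ℝ => h (x + s • va i)) (𝓝[≠] 0) (𝓝 (1 / 2)) := by
        refine tendsto_const_nhds.congr' ?_
        filter_upwards [h2] with s hs
        exact hs.symm
      exact tendsto_nhds_unique h1 h3
  have hsq : ∀ x : V n, R < ‖x‖ → √(2 * h x) = 1 := by
    intro x hx
    rw [hhalf x hx]
    norm_num
  have hrs : ContDiff ℝ ∞ fun x : V n => √(2 * h x) := by
    refine (contDiff_const.mul hhs).sqrt ?_
    intro x
    have := hhpos x
    positivity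
  refine ⟨cp i, cq i, ?_, fun x => cp i x * √(2 * h x), fun x => cq i x * √(2 * h x),
    (cp i).contDiff.mul hrs, (cq i).contDiff.mul hrs, ?_, ?_, 1, ?_⟩
  · rw [LinearIndependent.pair_iff]
    intro s t hst
    have h1 : (s • cp i + t • cq i) (va i) = (0 : V n →L[ℝ] ℝ) (va i) := by rw [hst]
    have h2 : (s • cp i + t • cq i) (vb i) = (0 : V n →L[ℝ] ℝ) (vb i) := by rw [hst]
    have h1' : s * cp i (va i) + t * cq i (va i) = 0 := h1
    have h2' : s * cp i (vb i) + t * cq i (vb i) = 0 := h2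
    rw [hPl.pa, hPl.qa] at h1'
    rw [hPl.pb, hPl.qb] at h2'
    constructor <;> linarith
  · refine ⟨Metric.closedBall 0 R, isCompact_closedBall 0 R, fun x hx => ?_⟩
    have hx' : R < ‖x‖ := by
      rw [Metric.mem_closedBall, dist_zero_right] at hx
      exact not_le.mp hx
    show cp i x * √(2 * h x) = cp i x
    rw [hsq x hx', mul_one]
  · refine ⟨Metric.closedBall 0 R, isCompact_closedBall 0 R, fun x hx => ?_⟩
    have hx' : R < ‖x‖ := by
      rw [Metric.mem_closedBall, dist_zero_right] at hx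
      exact not_le.mp hx
    show cq i x * √(2 * h x) = cq i x
    rw [hsq x hx', mul_one]
  · intro x X₁ X₂ h₁ h₂
    have e1 : X₁ = X x := by
      have h3 : X₁ - X x = 0 := by
        refine hS.nondeg x _ fun v => ?_
        have h4 : B x X₁ v = B x (X x) v := by rw [hBη, h₁ v]; exact (hX x v).symm
        rw [map_sub]
        show B x X₁ v - B x (X x) v = 0
        rw [h4, sub_self]
      exact sub_eq_zero.mp h3
    have e2 : X₂ = Y x := by
      have h3 : X₂ - Y x = 0 := by
        refine hS.nondeg x _ fun v => ?_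
        have h4 : B x X₂ v = B x (Y x) v := by rw [hBη, h₂ v]; exact (hY x v).symm
        rw [map_sub]
        show B x X₂ v - B x (Y x) v = 0
        rw [h4, sub_self]
      exact sub_eq_zero.mp h3
    rw [e1, e2, ← hBη]
    exact hXY x

end Pool.Agent.Helper5.SY
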